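import Pool.Agent.Lib_MP_91def8_ins.Inst

set_option autoImplicit false

namespace Pool.Agent.Results.MP_91def8_al.EveryExponent

open Pool.Agent.LibMP91ins

/-- For every `n ≥ 2` there are a group word `w` and a residually finite, virtually abelian group
`G` all of whose values of `w` have order dividing `n` such that the verbal subgroup `w(G)`
contains an element of infinite order. -/
theorem result (n : ℕ) (hn : 2 ≤ n) :
    ∃ (k : ℕ) (w : FreeGroup (Fin k)) (G : Type) (_ : Group G),
      ResiduallyFinite G ∧
      (∃ (r : ℕ) (A : Subgroup G) (e : A →* (Fin r → Multiplicative ℤ)),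
        A.Normal ∧ A.FiniteIndex ∧ Function.Injective e) ∧
      (∀ g : Fin k → G, FreeGroup.lift g w ^ n = 1) ∧
      ∃ x ∈ verbalSubgroup w G, ¬ IsOfFinOrder x :=
  fails n hn

end Pool.Agent.Results.MP_91def8_al.EveryExponent
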